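import Mathlib
import Pool.Agent.H922R2.OPC.Stubs

/-! ROT: `t ↦ c t` is a ring homomorphism of `k[λ]((t))`. -/

set_option autoImplicit false

open Pool.Agent.H922R2.OPC

namespace Pool.Agent.H53R2.OPC

theorem rot_coeff {k : Type} [Field k] (c : k) (h : L k) (i : ℤ) :
    (rot c h).coeff i = Polynomial.C (c ^ i) * h.coeff i := rfl

theorem rot_support {k : Type} [Field k] (c : k) (hc : c ≠ 0) (h : L k) :
    (rot c h).support = h.support := by
  ext i
  rw [HahnSeries.mem_support, HahnSeries.mem_support, rot_coeff, ne_eq, mul_eq_zero, not_or]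
  refine ⟨fun h1 => h1.2, fun h1 => ⟨?_, h1⟩⟩
  rw [Polynomial.C_eq_zero]
  exact zpow_ne_zero i hc

theorem rot_mul {k : Type} [Field k] (c : k) (hc : c ≠ 0) (g h : L k) :
    rot c (g * h) = rot c g * rot c h := by
  ext1
  funext w
  rw [rot_coeff, HahnSeries.coeff_mul, HahnSeries.coeff_mul, Finset.mul_sum]
  refine Finset.sum_congr ?_ ?_
  · ext ij
    simp only [Finset.mem_antidiagonal, rot_support c hc]
  · intro ij hij
    rw [Finset.mem_antidiagonal] at hij
    rw [rot_coeff, rot_coeff, ← hij.2.2, zpow_add₀ hc, Polynomial.C_mul]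
    ring

theorem rot_one {k : Type} [Field k] (c : k) : rot c (1 : L k) = 1 := by
  ext1
  funext i
  rw [rot_coeff, HahnSeries.coeff_one]
  split_ifs with h
  · rw [h, zpow_zero, Polynomial.C_1, mul_one]
  · rw [mul_zero]

theorem rot_add {k : Type} [Field k] (c : k) (g h : L k) :
    rot c (g + h) = rot c g + rot c h := by
  ext1
  funext i
  rw [HahnSeries.coeff_add, rot_coeff, rot_coeff, rot_coeff, HahnSeries.coeff_add, mul_add]

theorem rot_zero {k : Type} [Field k] (c : k) : rot c (0 : L k) = 0 := by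
  ext1
  funext i
  rw [rot_coeff, HahnSeries.coeff_zero, mul_zero]

/-- the ring homomorphism `t ↦ c t` -/
noncomputable def rotHom {k : Type} [Field k] (c : k) (hc : c ≠ 0) : L k →+* L k where
  toFun := rot c
  map_one' := rot_one c
  map_mul' := rot_mul c hc
  map_zero' := rot_zero c
  map_add' := rot_add c

theorem ROT (k : Type) [Field k] : Pool.Agent.H922R2.OPC.S_ROT k := by
  intro c hc
  exact ⟨rotHom c hc, fun h => rfl⟩

end Pool.Agent.H53R2.OPC
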